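import Mathlib
import Pool.Agent.Run7.h695.BT.WinW7

/-!
# Weighted `L ^ p` bounds, linear in `|n|`, for two windows of angular types and radial weights

A function `f` on the plane has angular type `j` if `f (b z) = b ^ j f z` for `|b| = 1`, that is
`f (r e ^ (i θ)) = φ (r) e ^ (i j θ)`.  Let `p > 1`, let `n` be a nonzero integer and let `f` be a sum
of Schwartz functions of the types `j` in a finite set `S` with `-6 n ^ 2 < j n < 8 n ^ 2` and
`j ≠ 2n` for `j ∈ S` (for `n > 0` this says `-6n < j < 8n`, `j ≠ 2n`).  Let `w` be a measurable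
radial weight such that

* `r ^ (2 - p) w` is non-increasing if some `j ∈ S` has `j n ≤ n ^ 2`,
* `r ^ (2 - p) w` is non-decreasing if some `j ∈ S` has `j n > n ^ 2`.

Then the norm of `T ^ n f` in `L ^ p (w)` is at most `44 |n|` times that of `f`.  The constant
depends on none of `p`, `S` and `w`.  For functions with spectrum in the lower half of the window the
condition holds for `|z| ^ α`, `α ≤ p - 2` (for `p ≥ 2` for all radially non-increasing weights), for
the upper half for `|z| ^ α`, `α ≥ p - 2`.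

Proof: `T ^ n f` is, up to a unimodular factor, `f` minus averages of its rotations and dilations
`f (v e ^ (i x) z)` and `f (v ^ (-1) e ^ (i x) z)`, `0 < v < 1`; by the identity of Parseval in `x`
the integral of the modulus of the kernel with the weight that Minkowski's inequality needs is at
most the integral of a square function of Jacobi polynomials, which is at most `22 |n| - 1`.  Away
from `v = 0` this is a moment of fractional order with no logarithm; near `v = 0` it follows from the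
moments of the orders `0` and `-1` and, for the type `0`, from a bound of Sonin's type.
-/

set_option autoImplicit false

open MeasureTheory

namespace Pool.Agent.Results.MP_75bf3e_an.RadialWindow

/-- `T ^ n f` for a nonzero integer `n`: the Fourier multiplier with symbol `(conj ξ / ξ) ^ n`, in the
literal form of the frozen statement. -/
noncomputable def T (n : ℤ) (f : SchwartzMap ℂ ℂ) (z : ℂ) : ℂ :=
  ∫ ξ : ℂ,
    Complex.exp (2 * (Real.pi : ℂ) * Complex.I * ((ξ.re * z.re + ξ.im * z.im : ℝ) : ℂ)) *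
      ((starRingEnd ℂ ξ / ξ) ^ n *
        ∫ x : ℂ, Complex.exp (-(2 * (Real.pi : ℂ) * Complex.I *
          ((x.re * ξ.re + x.im * ξ.im : ℝ) : ℂ))) * f x)

/-- `f (b z) = b ^ j f z` for all `|b| = 1`: the angular type is `j`. -/
def AngularType (j : ℤ) (f : SchwartzMap ℂ ℂ) : Prop :=
  ∀ b z : ℂ, ‖b‖ = 1 → f (b * z) = b ^ j * f z

/-- For all `p > 1`, all nonzero integers `n`, all finite sums `f` of Schwartz functions of angular
types `j ≠ 2n` with `-6 n ^ 2 < j n < 8 n ^ 2` and all radial measurable `w` with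
`w (v z) ≤ v ^ (p - 2) w z` (if some type has `j n > n ^ 2`) and `v ^ (p - 2) w z ≤ w (v z)` (if some
type has `j n ≤ n ^ 2`) for `0 < v ≤ 1`: `‖T ^ n f‖_{L ^ p (w)} ≤ 44 |n| ‖f‖_{L ^ p (w)}`. -/
theorem result : ∀ p : ℝ, 1 < p → ∀ n : ℤ, n ≠ 0 → ∀ (S : Finset ℤ) (g : ℤ → SchwartzMap ℂ ℂ),
    (∀ j ∈ S, -(6 * (n * n)) < j * n ∧ j * n < 8 * (n * n) ∧ j ≠ 2 * n) →
    (∀ j ∈ S, AngularType j (g j)) →
    ∀ w : ℂ → ℝ, Measurable w → (∀ b z : ℂ, ‖b‖ = 1 → w (b * z) = w z) →
      ((∃ j ∈ S, n * n < j * n) → ∀ v : ℝ, 0 < v → v ≤ 1 → ∀ z : ℂ,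
        w ((v : ℂ) * z) ≤ v ^ (p - 2) * w z) →
      ((∃ j ∈ S, j * n ≤ n * n) → ∀ v : ℝ, 0 < v → v ≤ 1 → ∀ z : ℂ,
        v ^ (p - 2) * w z ≤ w ((v : ℂ) * z)) →
      ∫⁻ z : ℂ, ‖T n (∑ j ∈ S, g j) z‖ₑ ^ p * ENNReal.ofReal (w z) ≤
        ENNReal.ofReal ((44 * |(n : ℝ)|) ^ p) *
          ∫⁻ z : ℂ, ‖(∑ j ∈ S, g j : SchwartzMap ℂ ℂ) z‖ₑ ^ p * ENNReal.ofReal (w z) := by
  intro p hp n hn S g hS hg w hw hr h1 h2
  exact Pool.Agent.Run7.h695.BT.window2Z hn hS hg hp hw hr h1 h2

end Pool.Agent.Results.MP_75bf3e_an.RadialWindow
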