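import Mathlib
import Pool.Agent.Run7.h695.BT.Wgt8

/-!
# Weighted bounds, linear in `|n|`, for weights that are monotone along rays

A function `f` on the plane has angular type `j` if `f (b z) = b ^ j f z` for `|b| = 1`, that is
`f (r e ^ (i θ)) = φ (r) e ^ (i j θ)`.  For every `p > 1`, every nonzero integer `n`, every integer
`j ≠ 2n`, every Schwartz function `f` of type `j` and every measurable `w` with

* `v ^ 2 w (v z) ≤ w z` for `0 < v ≤ 1` if `j` lies beyond `n` (that is `n * n < j * n`),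
* `v ^ (2p - 2) w z ≤ w (v z)` for `0 < v ≤ 1` if `j` does not lie beyond `n` and `j ≠ 0`,
* `v ^ (p - 2) w z ≤ w (v z)` for `0 < v ≤ 1` if `j = 0`,

the norm of `T ^ n f` in `L ^ p (w)` is at most `22 |n|` times that of `f`.  The bound does not
depend on `p` and `w`.  For `j ≠ 0` the weights `|z| ^ α Ω (z / |z|)`, `-2 ≤ α ≤ 2p - 2`, satisfy the
condition for every measurable `Ω ≥ 0`; both end points, where `|z| ^ α` is no longer in `A_p`, are
included.  For `j = 0` the range is `α ≤ p - 2`.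

Proof: on a type `j` the operator `T ^ n` is, up to a unimodular factor, the identity minus an
average over dilations `z ↦ v z` or `z ↦ z / v`, `0 < v < 1`, with a Jacobi polynomial as kernel.
The conditions on `w` are what Minkowski's inequality needs, with the same integral of the modulus
of the kernel for all `w`; that integral is at most `6.7 |n| - 0.33` for `j ≠ 0`, and at most
`22 |n| - 1` for `j = 0`.
-/

set_option autoImplicit false

open MeasureTheory

namespace Pool.Agent.Results.MP_75bf3e_an.RayMonotone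

/-- `T ^ n f` for a nonzero integer `n`: the Fourier multiplier with symbol `(conj ξ / ξ) ^ n`, in the
literal form of the frozen statement. -/
noncomputable def T (n : ℤ) (f : SchwartzMap ℂ ℂ) (z : ℂ) : ℂ :=
  ∫ ξ : ℂ,
    Complex.exp (2 * (Real.pi : ℂ) * Complex.I * ((ξ.re * z.re + ξ.im * z.im : ℝ) : ℂ)) *
      ((starRingEnd ℂ ξ / ξ) ^ n *
        ∫ x : ℂ, Complex.exp (-(2 * (Real.pi : ℂ) * Complex.I *
          ((x.re * ξ.re + x.im * ξ.im : ℝ) : ℂ))) * f x)

/-- `f (b z) = b ^ j f z` for all `|b| = 1`: the angular type is `j`. -/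
def AngularType (j : ℤ) (f : SchwartzMap ℂ ℂ) : Prop :=
  ∀ b z : ℂ, ‖b‖ = 1 → f (b * z) = b ^ j * f z

/-- For all `p > 1`, all nonzero integers `n`, all integers `j ≠ 2n`, all Schwartz functions `f` of
angular type `j` and all measurable `w` with the monotonicity along rays that belongs to `j`:
`‖T ^ n f‖_{L ^ p (w)} ≤ 22 |n| ‖f‖_{L ^ p (w)}`. -/
theorem result : ∀ p : ℝ, 1 < p → ∀ n : ℤ, n ≠ 0 → ∀ j : ℤ, j ≠ 2 * n →
    ∀ f : SchwartzMap ℂ ℂ, AngularType j f → ∀ w : ℂ → ℝ, Measurable w →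
      (n * n < j * n → ∀ v : ℝ, 0 < v → v ≤ 1 → ∀ z : ℂ, v ^ 2 * w ((v : ℂ) * z) ≤ w z) →
      (j * n ≤ n * n → j ≠ 0 → ∀ v : ℝ, 0 < v → v ≤ 1 → ∀ z : ℂ,
        v ^ (2 * p - 2) * w z ≤ w ((v : ℂ) * z)) →
      (j = 0 → ∀ v : ℝ, 0 < v → v ≤ 1 → ∀ z : ℂ, v ^ (p - 2) * w z ≤ w ((v : ℂ) * z)) →
      ∫⁻ z : ℂ, ‖T n f z‖ₑ ^ p * ENNReal.ofReal (w z) ≤
        ENNReal.ofReal ((22 * |(n : ℝ)|) ^ p) * ∫⁻ z : ℂ, ‖f z‖ₑ ^ p * ENNReal.ofReal (w z) := by
  intro p hp n hn j hj2 f hf w hw h1 h2 h3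
  exact Pool.Agent.Run7.h695.BT.singleZ0 hn hj2 hf hp hw h1 h2 h3

end Pool.Agent.Results.MP_75bf3e_an.RayMonotone
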